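import Pool.Agent.H16.FK.TargetsA

/-!
# Row RA4: isomorphisms preserve bags
-/

set_option autoImplicit false

namespace Pool.Agent.H50.FK

open Set Pool.Agent.H75.HCI Pool.Agent.H16.FK

variable {kx k : ℕ} {L : Type} {T : List (Idx kx k) → L} {b0 : List (Fin kx)} {s s' : ℕ → ℕ}
  {g f : Idx kx k → Idx kx k}

theorem nodup_map {l : List (Idx kx k)} (hi : InjOn g (V kx k s)) (hl : ∀ x ∈ l, x ∈ V kx k s)
    (h : l.Nodup) : (l.map g).Nodup := by
  refine List.Nodup.map_on ?_ h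
  intro x hx y hy hxy
  exact hi (hl x hx) (hl y hy) hxy

/-- Occurrences are preserved. -/
theorem occ_map (hi : InjOn g (V kx k s)) (hm : ∀ x ∈ V kx k s, g x ∈ V kx k s')
    (hT : ∀ l : List (Idx kx k), (∀ x ∈ l, x ∈ V kx k s) → T (l.map g) = T l)
    {D : List (Idx kx k)} (h : Occ T b0 s D) : Occ T b0 s' (D.map g) := by
  obtain ⟨w, Ds, hS, hw, hD, E, hE, hED⟩ := h
  have hall : ∀ x ∈ w ++ Ds.flatten, x ∈ V kx k s := by
    intro x hx
    rw [List.mem_append, List.mem_flatten] at hx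
    rcases hx with hx | ⟨F, hF, hx⟩
    · exact hw x hx
    · exact hD F hF x hx
  have hmap : (w ++ Ds.flatten).map g = w.map g ++ (Ds.map (List.map g)).flatten := by
    rw [List.map_append, List.map_flatten]
  refine ⟨w.map g, Ds.map (List.map g), ⟨?_, ?_, ?_, ?_, ?_⟩, ?_, ?_, E.map g,
    List.mem_map_of_mem hE, hED.map g⟩
  · rw [List.length_map, hS.len]
  · rw [List.length_map, hS.num]
  · intro F hF
    obtain ⟨F', hF', rfl⟩ := List.mem_map.1 hF
    rw [List.length_map, hS.lenD F' hF']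
  · rw [← hmap]
    exact nodup_map hi hall hS.nd
  · rw [← hmap, hT _ hall, hS.lab]
  · intro p hp
    obtain ⟨q, hq, rfl⟩ := List.mem_map.1 hp
    exact hm q (hw q hq)
  · intro F hF p hp
    obtain ⟨F', hF', rfl⟩ := List.mem_map.1 hF
    obtain ⟨q, hq, rfl⟩ := List.mem_map.1 hp
    exact hm q (hD F' hF' q hq)

theorem occ_vis {D : List (Idx kx k)} (h : Occ T b0 s D) : ∀ p ∈ D, p ∈ V kx k s := by
  obtain ⟨w, Ds, -, -, hD, E, hE, hED⟩ := h
  intro p hp
  exact hD E hE p (hED.mem_iff.2 hp)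

/-- Bags are preserved. -/
theorem bag_map (hi : InjOn g (V kx k s)) (hm : ∀ x ∈ V kx k s, g x ∈ V kx k s')
    (hT : ∀ l : List (Idx kx k), (∀ x ∈ l, x ∈ V kx k s) → T (l.map g) = T l)
    (hi' : InjOn f (V kx k s')) (hm' : ∀ x ∈ V kx k s', f x ∈ V kx k s)
    (hT' : ∀ l : List (Idx kx k), (∀ x ∈ l, x ∈ V kx k s') → T (l.map f) = T l)
    (hfg : ∀ x ∈ V kx k s, f (g x) = x) (hgf : ∀ x ∈ V kx k s', g (f x) = x)
    {D : List (Idx kx k)} (h : Bag T b0 s D) : Bag T b0 s' (D.map g) := by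
  have hDV := occ_vis h.1
  refine ⟨occ_map hi hm hT h.1, fun D' hD' => ?_⟩
  have h1 := occ_map hi' hm' hT' hD'
  have hV' := occ_vis hD'
  rcases h.2 _ h1 with h2 | h2
  · left
    have h3 := h2.map g
    have e : (D'.map f).map g = D' := by
      rw [List.map_map]
      conv_rhs => rw [← List.map_id D']
      exact List.map_congr_left fun x hx => hgf x (hV' x hx)
    rw [e] at h3
    exact h3
  · right
    intro x hx hx'
    obtain ⟨y, hy, rfl⟩ := List.mem_map.1 hx'
    refine h2 (a := y) ?_ hy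
    rw [List.mem_map]
    exact ⟨g y, hx, hfg y (hDV y hy)⟩

/-- The inverse. -/
theorem exists_inv (hI : Iso T g s s') : ∃ f : Idx kx k → Idx kx k,
    InjOn f (V kx k s') ∧ (∀ x ∈ V kx k s', f x ∈ V kx k s) ∧
    (∀ l : List (Idx kx k), (∀ x ∈ l, x ∈ V kx k s') → T (l.map f) = T l) ∧
    (∀ x ∈ V kx k s, f (g x) = x) ∧ ∀ x ∈ V kx k s', g (f x) = x := by
  classical
  have hex : ∀ y : Idx kx k, ∃ x, y ∈ V kx k s' → x ∈ V kx k s ∧ g x = y := by
    intro y
    by_cases hy : y ∈ V kx k s'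
    · rw [← hI.img] at hy
      obtain ⟨x, hx, rfl⟩ := hy
      exact ⟨x, fun _ => ⟨hx, rfl⟩⟩
    · exact ⟨y, fun h => absurd h hy⟩
  choose f hf using hex
  have hm : ∀ x ∈ V kx k s, g x ∈ V kx k s' := fun x hx => by
    rw [← hI.img]
    exact mem_image_of_mem g hx
  refine ⟨f, ?_, fun x hx => (hf x hx).1, ?_, ?_, fun x hx => (hf x hx).2⟩
  · intro x hx y hy hxy
    rw [← (hf x hx).2, ← (hf y hy).2, hxy]
  · intro l hl
    have h1 := hI.lab (l.map f) (by
      intro x hx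
      obtain ⟨y, hy, rfl⟩ := List.mem_map.1 hx
      exact (hf y (hl y hy)).1)
    rw [← h1, List.map_map]
    congr 1
    conv_rhs => rw [← List.map_id l]
    exact List.map_congr_left fun x hx => (hf x (hl x hx)).2
  · intro x hx
    exact hI.inj (hf _ (hm x hx)).1 hx (hf _ (hm x hx)).2

theorem pf_RA4 : T_RA4 := by
  intro kx k L T b0 s s' g hI D hD
  obtain ⟨f, h1, h2, h3, h4, h5⟩ := exists_inv hI
  have hm : ∀ x ∈ V kx k s, g x ∈ V kx k s' := fun x hx => by
    rw [← hI.img]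
    exact mem_image_of_mem g hx
  constructor
  · exact fun h => bag_map hI.inj hm hI.lab h1 h2 h3 h4 h5 h
  · intro h
    have h6 := bag_map h1 h2 h3 hI.inj hm hI.lab h5 h4 h
    have e : (D.map g).map f = D := by
      rw [List.map_map]
      conv_rhs => rw [← List.map_id D]
      exact List.map_congr_left fun x hx => h4 x (hD x hx)
    rw [e] at h6
    exact h6

end Pool.Agent.H50.FK
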