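import Pool.Agent.H50.FK.RA4

/-!
# Row RB2: isomorphisms preserve the classes
-/

set_option autoImplicit false

namespace Pool.Agent.H50.FK

open Set Pool.Agent.H75.HCI Pool.Agent.H16.FK

variable {kx k : ℕ} {L : Type} {T : List (Idx kx k) → L} {s s' : ℕ → ℕ}
  {g f : Idx kx k → Idx kx k}

theorem hub_shift (hP : PatInv T) (i : ℕ) (J : List (Fin kx)) : T (hub i J) = T (hub 0 J) := by
  have h := hP (fun p => (i, p.2)) {p | p.1 = 0 ∧ ∃ b, p.2 = .inl b}
    ⟨fun p _ => rfl, fun p hp q hq => by simp [hp.1, hq.1], fun p hp q hq _ u u' v v' h1 => by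
      obtain ⟨-, b, hb⟩ := hp
      rw [hb] at h1
      cases h1⟩ (hub 0 J) (by
      intro x hx
      obtain ⟨b, -, rfl⟩ := List.mem_map.1 hx
      exact ⟨rfl, b, rfl⟩)
  rw [← h]
  unfold hub
  rw [List.map_map]
  rfl

theorem row_shift (hP : PatInv T) (i m : ℕ) : T (row i m) = T (row 0 0) := by
  have h := hP (fun p => (i, p.2.elim .inl fun q => .inr (m, q.2)))
    {p | p.1 = 0 ∧ ∃ y, p.2 = .inr (0, y)}
    ⟨fun p hp => by
      obtain ⟨-, y, hy⟩ := hp
      simp [hy, kd], fun p hp q hq => by simp [hp.1, hq.1], fun p hp q hq _ u u' v v' h1 h2 h3 h4 => by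
      obtain ⟨-, y, hy⟩ := hp
      obtain ⟨-, z, hz⟩ := hq
      rw [hy] at h1
      rw [hz] at h2
      simp only [hy, hz, Sum.elim_inr] at h3 h4
      cases h1
      cases h2
      cases h3
      cases h4
      simp⟩ (row 0 0) (by
      intro x hx
      unfold row prt at hx
      obtain ⟨b, -, rfl⟩ := List.mem_map.1 hx
      exact ⟨rfl, b, rfl⟩)
  rw [← h]
  unfold row prt
  rw [List.map_map]
  rfl

/-- a cell -/
structure Cell (T : List (Idx kx k) → L) (D : List (Idx kx k)) : Prop where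
  nd : D.Nodup
  len : D.length = k
  lab : T D = T (row 0 0)

/-- a cell which is disjoint from all other cells -/
structure CB (T : List (Idx kx k) → L) (s : ℕ → ℕ) (D : List (Idx kx k)) : Prop where
  cell : Cell T D
  vis : ∀ x ∈ D, x ∈ V kx k s
  dis : ∀ D', Cell T D' → (∀ x ∈ D', x ∈ V kx k s) → D'.Perm D ∨ D'.Disjoint D

theorem cell_map (hi : InjOn g (V kx k s))
    (hT : ∀ l : List (Idx kx k), (∀ x ∈ l, x ∈ V kx k s) → T (l.map g) = T l)
    {D : List (Idx kx k)} (hD : ∀ x ∈ D, x ∈ V kx k s) (h : Cell T D) : Cell T (D.map g) :=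
  ⟨nodup_map hi hD h.nd, by rw [List.length_map, h.len], by rw [hT _ hD, h.lab]⟩

theorem cb_map (hi : InjOn g (V kx k s)) (hm : ∀ x ∈ V kx k s, g x ∈ V kx k s')
    (hT : ∀ l : List (Idx kx k), (∀ x ∈ l, x ∈ V kx k s) → T (l.map g) = T l)
    (hi' : InjOn f (V kx k s')) (hm' : ∀ x ∈ V kx k s', f x ∈ V kx k s)
    (hT' : ∀ l : List (Idx kx k), (∀ x ∈ l, x ∈ V kx k s') → T (l.map f) = T l)
    (hfg : ∀ x ∈ V kx k s, f (g x) = x) (hgf : ∀ x ∈ V kx k s', g (f x) = x)
    {D : List (Idx kx k)} (h : CB T s D) : CB T s' (D.map g) := by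
  refine ⟨cell_map hi hT h.vis h.cell, ?_, fun D' h1 h2 => ?_⟩
  · intro x hx
    obtain ⟨y, hy, rfl⟩ := List.mem_map.1 hx
    exact hm y (h.vis y hy)
  · rcases h.dis _ (cell_map hi' hT' h2 h1) (by
      intro x hx
      obtain ⟨y, hy, rfl⟩ := List.mem_map.1 hx
      exact hm' y (h2 y hy)) with h3 | h3
    · left
      have h4 := h3.map g
      have e : (D'.map f).map g = D' := by
        rw [List.map_map]
        conv_rhs => rw [← List.map_id D']
        exact List.map_congr_left fun x hx => hgf x (h2 x hx)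
      rw [e] at h4
      exact h4
    · right
      intro x hx hx'
      obtain ⟨y, hy, rfl⟩ := List.mem_map.1 hx'
      refine h3 (a := y) ?_ hy
      rw [List.mem_map]
      exact ⟨g y, hx, hfg y (h.vis y hy)⟩

theorem mem_row {i m : ℕ} {x : Idx kx k} : x ∈ (row i m : List (Idx kx k)) ↔
    ∃ y, x = (i, .inr (m, y)) := by
  unfold row prt
  rw [List.mem_map]
  constructor
  · rintro ⟨y, -, rfl⟩
    exact ⟨y, rfl⟩
  · rintro ⟨y, rfl⟩
    exact ⟨y, List.mem_finRange y, rfl⟩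

theorem mem_hub {i : ℕ} {J : List (Fin kx)} {x : Idx kx k} : x ∈ (hub i J : List (Idx kx k)) ↔
    ∃ b ∈ J, x = (i, .inl b) := by
  unfold hub
  rw [List.mem_map]
  constructor
  · rintro ⟨y, h, rfl⟩
    exact ⟨y, h, rfl⟩
  · rintro ⟨y, h, rfl⟩
    exact ⟨y, h, rfl⟩

theorem hub_vis (i : ℕ) (J : List (Fin kx)) : ∀ x ∈ (hub i J : List (Idx kx k)), x ∈ V kx k s := by
  intro x hx q hq
  obtain ⟨b, -, rfl⟩ := mem_hub.1 hx
  cases hq

theorem hub_inj (i : ℕ) : Function.Injective (fun x : Fin kx => ((i, .inl x) : Idx kx k)) := by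
  intro x y h
  simpa using h

theorem hub_perm {i : ℕ} {J J' : List (Fin kx)} :
    (hub i J : List (Idx kx k)).Perm (hub i J') ↔ J.Perm J' :=
  List.map_perm_map_iff (hub_inj i)

theorem hub_disj {i : ℕ} {J J' : List (Fin kx)} :
    (hub i J : List (Idx kx k)).Disjoint (hub i J') ↔ J.Disjoint J' := by
  constructor
  · intro h b hb hb'
    exact h (mem_hub.2 ⟨b, hb, rfl⟩) (mem_hub.2 ⟨b, hb', rfl⟩)
  · intro h x hx hx'
    obtain ⟨b, hb, rfl⟩ := mem_hub.1 hx
    obtain ⟨b', hb', h2⟩ := mem_hub.1 hx'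
    have h3 : b = b' := by simpa using h2
    exact h hb (h3 ▸ hb')

theorem row_cell (hP : PatInv T) (i m : ℕ) : Cell T (row i m) := by
  refine ⟨?_, ?_, row_shift hP i m⟩
  · unfold row prt
    refine List.Nodup.map ?_ (List.nodup_finRange k)
    intro x y h
    simpa using h
  · simp [row, prt]

theorem hub_cell (hP : PatInv T) {i : ℕ} {J : List (Fin kx)} :
    Cell T (hub i J) ↔ HB T J := by
  constructor
  · intro h
    refine ⟨List.Nodup.of_map _ h.nd, ?_, ?_⟩
    · have := h.len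
      simpa [hub] using this
    · rw [← hub_shift hP i J]
      exact h.lab
  · rintro ⟨h1, h2, h3⟩
    refine ⟨List.Nodup.map (hub_inj i) h1, by simpa [hub] using h2, ?_⟩
    rw [hub_shift hP i J]
    exact h3

/-- The classes in terms of the cells. -/
theorem cls_iff (hP : PatInv T) {cl : Fin kx → Fin kx} (hcl : ClB T cl)
    (hRB : ∀ D : List (Idx kx k), D.Nodup → D.length = k → T D = T (row 0 0) →
      (∃ i m, D.Perm (row i m)) ∨ ∃ i b, D = hub i b)
    {x y : Idx kx k} (hx : x ∈ V kx k s) (hy : y ∈ V kx k s) :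
    ec cl x = ec cl y ↔ x = y ∨ ∃ D, CB T s D ∧ x ∈ D ∧ y ∈ D := by
  constructor
  · intro h
    obtain ⟨i, x⟩ := x
    obtain ⟨i', y⟩ := y
    unfold ec at h
    rw [Prod.mk.injEq] at h
    obtain ⟨h1, h2⟩ := h
    change i = i' at h1
    subst h1
    rcases x with b | ⟨m, a⟩ <;> rcases y with b' | ⟨m', a'⟩
    · simp only [Sum.elim_inl, Sum.inl.injEq] at h2
      rcases (hcl b b').1 h2 with rfl | ⟨J, hJ, hb, hb'⟩
      · exact Or.inl rfl
      · refine Or.inr ⟨hub i J, ⟨(hub_cell hP).2 hJ.1, hub_vis i J, fun D' h3 h4 => ?_⟩,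
          mem_hub.2 ⟨b, hb, rfl⟩, mem_hub.2 ⟨b', hb', rfl⟩⟩
        rcases hRB D' h3.nd h3.len h3.lab with ⟨i1, m1, h5⟩ | ⟨i1, b1, rfl⟩
        · right
          intro z hz hz'
          obtain ⟨y1, rfl⟩ := mem_row.1 (h5.mem_iff.1 hz)
          obtain ⟨b2, -, h6⟩ := mem_hub.1 hz'
          simp at h6
        · by_cases hi : i1 = i
          · subst hi
            rcases hJ.2 b1 ((hub_cell hP).1 h3) with h6 | h6
            · exact Or.inl (hub_perm.2 h6)
            · exact Or.inr (hub_disj.2 h6)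
          · right
            intro z hz hz'
            obtain ⟨b2, -, rfl⟩ := mem_hub.1 hz
            obtain ⟨b3, -, h6⟩ := mem_hub.1 hz'
            rw [Prod.mk.injEq] at h6
            exact hi h6.1
    · simp at h2
    · simp at h2
    · simp only [Sum.elim_inr, Sum.inr.injEq] at h2
      change m = m' at h2
      subst h2
      refine Or.inr ⟨row i m, ⟨row_cell hP i m, ?_, fun D' h3 h4 => ?_⟩, mem_row.2 ⟨a, rfl⟩,
        mem_row.2 ⟨a', rfl⟩⟩
      · intro z hz q hq
        obtain ⟨y1, rfl⟩ := mem_row.1 hz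
        have h5 := hx (m, a) rfl
        simp only [Sum.inr.injEq] at hq
        rw [← hq]
        exact h5
      · rcases hRB D' h3.nd h3.len h3.lab with ⟨i1, m1, h5⟩ | ⟨i1, b1, rfl⟩
        · by_cases hi : i1 = i ∧ m1 = m
          · left
            rw [hi.1, hi.2] at h5
            exact h5
          · right
            intro z hz hz'
            obtain ⟨y1, rfl⟩ := mem_row.1 (h5.mem_iff.1 hz)
            obtain ⟨y2, h6⟩ := mem_row.1 hz'
            simp only [Prod.mk.injEq, Sum.inr.injEq] at h6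
            exact hi ⟨h6.1, h6.2.1⟩
        · right
          intro z hz hz'
          obtain ⟨b2, -, rfl⟩ := mem_hub.1 hz
          obtain ⟨y2, h6⟩ := mem_row.1 hz'
          simp at h6
  · rintro (rfl | ⟨D, hD, hxD, hyD⟩)
    · rfl
    · rcases hRB D hD.cell.nd hD.cell.len hD.cell.lab with ⟨i1, m1, h5⟩ | ⟨i1, b1, rfl⟩
      · obtain ⟨y1, rfl⟩ := mem_row.1 (h5.mem_iff.1 hxD)
        obtain ⟨y2, rfl⟩ := mem_row.1 (h5.mem_iff.1 hyD)
        rfl
      · obtain ⟨b2, hb2, rfl⟩ := mem_hub.1 hxD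
        obtain ⟨b3, hb3, rfl⟩ := mem_hub.1 hyD
        have h6 : cl b2 = cl b3 := by
          refine (hcl b2 b3).2 (Or.inr ⟨b1, ⟨(hub_cell hP).1 hD.cell, fun J' hJ' => ?_⟩, hb2, hb3⟩)
          rcases hD.dis (hub i1 J') ((hub_cell hP).2 hJ') (hub_vis i1 J') with h7 | h7
          · exact Or.inl (hub_perm.1 h7)
          · exact Or.inr (hub_disj.1 h7)
        simp [ec, h6]

theorem pf_RB2 (hRB : T_RB1) : T_RB2 := by
  intro kx k L T cl s s' g hA hk hL hcl hI
  have hP := hA.pat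
  obtain ⟨f, h1, h2, h3, h4, h5⟩ := exists_inv hI
  have hm : ∀ x ∈ V kx k s, g x ∈ V kx k s' := fun x hx => by
    rw [← hI.img]
    exact mem_image_of_mem g hx
  refine ⟨hI.inj, hI.lab, fun x hx y hy => ?_⟩
  rw [cls_iff hP hcl (hRB kx k L T hA hk hL) (hm x hx) (hm y hy),
    cls_iff hP hcl (hRB kx k L T hA hk hL) hx hy]
  constructor
  · rintro (h | ⟨D, hD, hxD, hyD⟩)
    · exact Or.inl (hI.inj hx hy h)
    · refine Or.inr ⟨D.map f, cb_map h1 h2 h3 hI.inj hm hI.lab h5 h4 hD, ?_, ?_⟩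
      · have := List.mem_map_of_mem (f := f) hxD
        rwa [h4 x hx] at this
      · have := List.mem_map_of_mem (f := f) hyD
        rwa [h4 y hy] at this
  · rintro (h | ⟨D, hD, hxD, hyD⟩)
    · exact Or.inl (congrArg g h)
    · exact Or.inr ⟨D.map g, cb_map hI.inj hm hI.lab h1 h2 h3 h4 h5 hD, List.mem_map_of_mem hxD,
        List.mem_map_of_mem hyD⟩

end Pool.Agent.H50.FK
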